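import Mathlib

set_option autoImplicit false

namespace Pool.Agent.H.MP_a1472e_al

open Subgroup
open scoped commutatorElement

universe u
variable {G : Type u} [Group G]

theorem three (H1 H2 H3 N : Subgroup G) [N.Normal] (h1 : ⁅⁅H2, H3⁆, H1⁆ ≤ N)
    (h2 : ⁅⁅H3, H1⁆, H2⁆ ≤ N) : ⁅⁅H1, H2⁆, H3⁆ ≤ N := by
  have key : ∀ K : Subgroup G, K ≤ N ↔ K.map (QuotientGroup.mk' N) = ⊥ := fun K => by
    rw [Subgroup.map_eq_bot_iff, QuotientGroup.ker_mk']
  rw [key] at h1 h2 ⊢
  simp only [Subgroup.map_commutator] at h1 h2 ⊢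
  exact Subgroup.commutator_commutator_eq_bot_of_rotate h1 h2

def St (P : Set G) (Q : Subgroup G) : Subgroup G where
  carrier := {g | g ∈ normalizer (Q : Set G) ∧ ∀ a ∈ P, ⁅a, g⁆ ∈ Q}
  one_mem' := ⟨one_mem _, fun a _ => by simp⟩
  mul_mem' := by
    rintro g h ⟨hg, hg'⟩ ⟨hh, hh'⟩
    refine ⟨mul_mem hg hh, fun a ha => ?_⟩
    have := Q.mul_mem (hg' a ha) ((mem_normalizer_iff.1 hg _).1 (hh' a ha))
    convert this using 1
    simp only [commutatorElement_def]; group
  inv_mem' := by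
    rintro g ⟨hg, hg'⟩
    refine ⟨inv_mem hg, fun a ha => ?_⟩
    have := (mem_normalizer_iff''.1 hg _).1 (Q.inv_mem (hg' a ha))
    convert this using 1
    simp only [commutatorElement_def]; group

theorem comm_le_iff {P K Q : Subgroup G} (h : K ≤ normalizer (Q : Set G)) :
    ⁅P, K⁆ ≤ Q ↔ K ≤ St (P : Set G) Q :=
  ⟨fun h' _ hg => ⟨h hg, fun _ ha => h' (commutator_mem_commutator ha hg)⟩,
   fun h' => commutator_le.2 fun a ha _ hg => (h' hg).2 a ha⟩

theorem comm_sup {P A B Q : Subgroup G} (hA : A ≤ normalizer (Q : Set G))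
    (hB : B ≤ normalizer (Q : Set G)) (h1 : ⁅P, A⁆ ≤ Q) (h2 : ⁅P, B⁆ ≤ Q) : ⁅P, A ⊔ B⁆ ≤ Q :=
  (comm_le_iff (sup_le hA hB)).2 (sup_le ((comm_le_iff hA).1 h1) ((comm_le_iff hB).1 h2))

def it (P : Subgroup G) : ℕ → Subgroup G
  | 0 => P
  | n + 1 => it ⁅P, ⊤⁆ n

theorem it_succ (n : ℕ) : ∀ P : Subgroup G, it P (n + 1) = ⁅it P n, ⊤⁆ := by
  induction n with
  | zero => intro P; rfl
  | succ n ih => intro P; exact ih _

theorem it_add (m : ℕ) : ∀ (P : Subgroup G) (n : ℕ), it P (m + n) = it (it P m) n := by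
  induction m with
  | zero => intro P n; simp [it]
  | succ m ih => intro P n; rw [Nat.add_right_comm]; exact ih _ n

theorem it_mono (n : ℕ) : ∀ {P Q : Subgroup G}, P ≤ Q → it P n ≤ it Q n := by
  induction n with
  | zero => intro P Q h; exact h
  | succ n ih => intro P Q h; exact ih (commutator_mono h le_rfl)

instance it_normal (n : ℕ) (P : Subgroup G) [P.Normal] : (it P n).Normal := by
  induction n with
  | zero => assumption
  | succ n ih => rw [it_succ]; infer_instance

theorem it_le (n : ℕ) (P : Subgroup G) [P.Normal] : it P n ≤ P := by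
  induction n with
  | zero => exact le_rfl
  | succ n ih => rw [it_succ]; exact (commutator_le_left _ _).trans ih

theorem it_anti (P : Subgroup G) [P.Normal] {m n : ℕ} (h : m ≤ n) : it P n ≤ it P m := by
  obtain ⟨k, rfl⟩ := Nat.exists_eq_add_of_le h
  rw [it_add]; exact it_le _ _

theorem it_top (n : ℕ) : it (⊤ : Subgroup G) n = (⊤ : Subgroup G).lowerCentralSeries n := by
  induction n with
  | zero => rfl
  | succ n ih => rw [it_succ, ih]; rfl

theorem it_sup (n : ℕ) : ∀ (P Q : Subgroup G) [P.Normal] [Q.Normal],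
    it (P ⊔ Q) n ≤ it P n ⊔ it Q n := by
  induction n with
  | zero => intro P Q _ _; exact le_rfl
  | succ n ih =>
    intro P Q _ _
    refine (it_mono n ?_).trans (ih ⁅P, ⊤⁆ ⁅Q, ⊤⁆)
    rw [commutator_comm]
    exact comm_sup le_normalizer_of_normal le_normalizer_of_normal
      ((commutator_comm_le _ _).trans le_sup_left) ((commutator_comm_le _ _).trans le_sup_right)

theorem it_comm (N : Subgroup G) (s : ℕ) : ∀ (A B : Subgroup G) [A.Normal] [B.Normal],
    (∀ a b, a + b = s → ⁅it A a, it B b⁆ ≤ N) → it ⁅A, B⁆ s ≤ N := by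
  induction s with
  | zero => intro A B _ _ h; exact h 0 0 rfl
  | succ s ih =>
    intro A B _ _ h
    have h1 : ⁅⁅A, B⁆, (⊤ : Subgroup G)⁆ ≤ ⁅⁅A, (⊤ : Subgroup G)⁆, B⁆ ⊔ ⁅A, ⁅B, (⊤ : Subgroup G)⁆⁆ := by
      apply three
      · exact (commutator_comm_le _ _).trans le_sup_right
      · rw [commutator_comm ⊤]; exact le_sup_left
    refine (it_mono s h1).trans ((it_sup s _ _).trans (sup_le (ih _ _ fun a b e => ?_)
      (ih _ _ fun a b e => ?_)))
    · exact h (a + 1) b (by omega)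
    · exact h a (b + 1) (by omega)

theorem hall0 (n c : ℕ) : ∃ m, ∀ (K : Type u) [Group K] (H : Subgroup K) [H.Normal],
    (⊤ : Subgroup K).lowerCentralSeries n ≤ ⁅H, H⁆ →
      (⊤ : Subgroup K).lowerCentralSeries m ≤ H.lowerCentralSeries c := by
  have key : ∀ i, ∃ m, ∀ (K : Type u) [Group K] (H : Subgroup K) [H.Normal],
      (⊤ : Subgroup K).lowerCentralSeries n ≤ ⁅H, H⁆ →
        it (H.lowerCentralSeries i) m ≤ H.lowerCentralSeries (i + 1) := by
    intro i
    induction i with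
    | zero => exact ⟨n, fun K _ H _ h => (it_mono n le_top).trans ((it_top n).le.trans h)⟩
    | succ i ih =>
      obtain ⟨m, hm⟩ := ih
      refine ⟨m + n, fun K _ H _ h => it_comm _ _ _ _ fun a b e => ?_⟩
      rcases le_total m a with ha | ha
      · exact commutator_mono ((it_anti _ ha).trans (hm K H h)) (it_le _ _)
      · have hb : it H b ≤ ⁅H, H⁆ := (it_anti _ (by omega : n ≤ b)).trans
          ((it_mono n le_top).trans ((it_top n).le.trans h))
        refine (commutator_mono (it_le _ _) hb).trans ((commutator_comm_le _ _).trans ?_)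
        apply three
        · rw [commutator_comm H]; exact le_rfl
        · exact le_rfl
  induction c with
  | zero =>
    exact ⟨n, fun K _ H _ h => h.trans (commutator_le_self H)⟩
  | succ c ih =>
    obtain ⟨m, hm⟩ := ih
    obtain ⟨k, hk⟩ := key c
    refine ⟨m + k, fun K _ H _ h => ?_⟩
    rw [← it_top, it_add, it_top]
    exact (it_mono k (hm K H h)).trans (hk K H h)

theorem hall (n c : ℕ) : ∃ m, ∀ (G : Type u) [Group G] (K H : Subgroup G), H ≤ K →
    K ≤ normalizer (H : Set G) → K.lowerCentralSeries n ≤ ⁅H, H⁆ →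
      K.lowerCentralSeries m ≤ H.lowerCentralSeries c := by
  obtain ⟨m, hm⟩ := hall0.{u} n c
  refine ⟨m, fun G _ K H h1 h2 h3 => ?_⟩
  have := (normal_subgroupOf_iff_le_normalizer h1).2 h2
  have e : (H.subgroupOf K).map K.subtype = H := map_subgroupOf_eq_of_le h1
  have := hm K (H.subgroupOf K) (by
    rw [← map_le_map_iff_of_injective K.subtype_injective, map_commutator, e,
      top_subtype_lowerCentralSeries]
    exact h3)
  rwa [← map_le_map_iff_of_injective K.subtype_injective, top_subtype_lowerCentralSeries,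
    map_lowerCentralSeries, e] at this

def cm (y z : G) : G := z⁻¹ * y⁻¹ * z * y

structure Ok (E : Subgroup G) (x : G) (A : Subgroup G) : Prop where
  c : ⁅E, E⁆ ≤ A
  l : A ≤ E
  e : x ∈ normalizer (E : Set G)
  a : x ∈ normalizer (A : Set G)

theorem Ok.n {E A : Subgroup G} {x : G} (h : Ok E x A) : E ≤ normalizer (A : Set G) :=
  le_normalizer_iff_commutator_le_right.2 ((commutator_mono le_rfl h.l).trans h.c)

theorem cm_mem {E : Subgroup G} {x a : G} (h : x ∈ normalizer (E : Set G)) (ha : a ∈ E) :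
    cm x a ∈ E := by
  have := E.mul_mem (E.inv_mem ha) ((mem_normalizer_iff''.1 h _).1 ha)
  convert this using 1
  simp only [cm]; group

def stp {E A : Subgroup G} {x : G} (h : Ok E x A) : Subgroup G where
  carrier := {a | a ∈ E ∧ cm x a ∈ A}
  one_mem' := ⟨one_mem _, by simp [cm]⟩
  mul_mem' := by
    rintro a b ⟨ha, ha'⟩ ⟨hb, hb'⟩
    refine ⟨mul_mem ha hb, ?_⟩
    have := A.mul_mem ((mem_normalizer_iff''.1 (h.n hb) _).1 ha') hb'
    convert this using 1
    simp only [cm]; group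
  inv_mem' := by
    rintro a ⟨ha, ha'⟩
    refine ⟨inv_mem ha, ?_⟩
    have := (mem_normalizer_iff.1 (h.n ha) _).1 (A.inv_mem ha')
    convert this using 1
    simp only [cm]; group

theorem stp_le {E A : Subgroup G} {x : G} (h : Ok E x A) : A ≤ stp h :=
  fun _ ha => ⟨h.l ha, cm_mem h.a ha⟩

theorem stp_ok {E A : Subgroup G} {x : G} (h : Ok E x A) : Ok E x (stp h) := by
  refine ⟨h.c.trans (stp_le h), fun _ ha => ha.1, h.e, mem_normalizer_iff.2 fun a => ?_⟩
  have : cm x (x * a * x⁻¹) = x * cm x a * x⁻¹ := by simp only [cm]; group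
  exact and_congr (mem_normalizer_iff.1 h.e a) (this ▸ mem_normalizer_iff.1 h.a _)

theorem stp_comm {E A : Subgroup G} {x : G} (h : Ok E x A) : ⁅stp h, E ⊔ zpowers x⁆ ≤ A := by
  refine comm_sup h.n (zpowers_le.2 h.a) ((commutator_mono (stp_ok h).l le_rfl).trans h.c) ?_
  rw [comm_le_iff (zpowers_le.2 h.a), zpowers_le, ← inv_mem_iff]
  refine ⟨inv_mem h.a, fun a ha => ?_⟩
  have := (inv_mem ha : a⁻¹ ∈ stp h).2
  convert this using 1
  simp only [cm, commutatorElement_def]; group

def ch {E A : Subgroup G} {x : G} (h : Ok E x A) : ℕ → {B : Subgroup G // Ok E x B}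
  | 0 => ⟨A, h⟩
  | n + 1 => ⟨stp (ch h n).2, stp_ok _⟩

theorem ch_mem {E A : Subgroup G} {x : G} (h : Ok E x A) (n : ℕ) :
    ∀ a ∈ E, (cm x)^[n] a ∈ A → a ∈ (ch h n).1 := by
  induction n with
  | zero => intro a _ ha; exact ha
  | succ n ih => intro a ha h'; exact ⟨ha, ih _ (cm_mem h.e ha) h'⟩

theorem ch_mono {E A : Subgroup G} {x : G} (h : Ok E x A) : Monotone fun n => (ch h n).1 :=
  monotone_nat_of_le_succ fun n => stp_le (ch h n).2

theorem ch_comm {E A : Subgroup G} {x : G} (h : Ok E x A) (n : ℕ) :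
    ⁅(ch h (n + 1)).1, E ⊔ zpowers x⁆ ≤ (ch h n).1 := stp_comm (ch h n).2

theorem norm_comm {P Q : Subgroup G} {x : G} (h1 : x ∈ normalizer (P : Set G))
    (h2 : x ∈ normalizer (Q : Set G)) : x ∈ normalizer ((⁅P, Q⁆ : Subgroup G) : Set G) := by
  rw [mem_normalizer_iff_map_conj_eq] at h1 h2 ⊢
  rw [map_commutator, h1, h2]

theorem cyc_lcs {T : Set G} {y : G} {n : ℕ} (hy : y ∈ normalizer (closure T : Set G))
    (h : ∀ t ∈ T, (cm y)^[n] t = 1) :
    (closure T ⊔ zpowers y).lowerCentralSeries (n + 1) ≤ ⁅closure T, closure T⁆ := by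
  set H := closure T
  have ok : Ok H y ⁅H, H⁆ := ⟨le_rfl, commutator_le_self H, hy, norm_comm hy hy⟩
  have hK : H ⊔ zpowers y ≤ normalizer (H : Set G) := sup_le le_normalizer (zpowers_le.2 hy)
  have h1 : (H ⊔ zpowers y).lowerCentralSeries 1 ≤ (ch ok n).1 := by
    refine le_trans (b := H) ?_ ((closure_le _).2 fun t ht =>
      ch_mem ok n t (subset_closure ht) (by rw [h t ht]; exact one_mem _))
    refine comm_sup le_normalizer (zpowers_le.2 hy)
      (le_normalizer_iff_commutator_le_right.1 hK) ((commutator_comm_le _ _).trans ?_)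
    refine comm_sup le_normalizer (zpowers_le.2 hy)
      (le_normalizer_iff_commutator_le_right.1 (zpowers_le.2 hy)) ?_
    rw [commutator_self_eq_bot_iff.2 inferInstance]; exact bot_le
  have h2 : ∀ j m, (H ⊔ zpowers y).lowerCentralSeries m ≤ (ch ok j).1 →
      (H ⊔ zpowers y).lowerCentralSeries (j + m) ≤ ⁅H, H⁆ := by
    intro j
    induction j with
    | zero => intro m hm; rw [zero_add]; exact hm
    | succ j ih =>
      intro m hm
      rw [add_assoc, add_comm 1 m]
      exact ih _ ((commutator_mono hm le_rfl).trans (ch_comm ok j))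
  exact h2 n 1 h1

theorem cyc_bd (n c : ℕ) : ∃ m, ∀ (G : Type u) [Group G] (T : Set G) (y : G),
    y ∈ normalizer (closure T : Set G) → (∀ t ∈ T, (cm y)^[n] t = 1) →
    (closure T).lowerCentralSeries c = ⊥ →
    (closure T ⊔ zpowers y).lowerCentralSeries m = ⊥ := by
  obtain ⟨m, hm⟩ := hall.{u} (n + 1) c
  exact ⟨m, fun G _ T y hy h hc => le_bot_iff.1 ((hm G _ _ le_sup_left
    (sup_le le_normalizer (zpowers_le.2 hy)) (cyc_lcs hy h)).trans hc.le)⟩

end Pool.Agent.H.MP_a1472e_al
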