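import Pool.Agent.H.MP_a1472e_al.A

set_option autoImplicit false

namespace Pool.Agent.H.MP_a1472e_al

open Subgroup
open scoped commutatorElement

universe u
variable {G : Type u} [Group G]

def Nil (H : Subgroup G) : Prop := ∃ c, H.lowerCentralSeries c = ⊥

theorem Nil.mono {H K : Subgroup G} (h : Nil K) (e : H ≤ K) : Nil H := by
  obtain ⟨c, hc⟩ := h
  exact ⟨c, le_bot_iff.1 ((lowerCentralSeries_mono c e).trans hc.le)⟩

theorem Nil.map {G' : Type u} [Group G'] {H : Subgroup G} (h : Nil H) (f : G →* G') :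
    Nil (H.map f) := by
  obtain ⟨c, hc⟩ := h
  exact ⟨c, by rw [← map_lowerCentralSeries, hc, Subgroup.map_bot]⟩

theorem nil_ab {H : Subgroup G} (h : ⁅H, H⁆ = ⊥) : Nil H := ⟨1, h⟩

def Good (Y : Set G) : Prop := ∀ F : Set G, F.Finite → F ⊆ Y → Nil (closure F)

theorem Good.mono {Y Z : Set G} (h : Good Z) (e : Y ⊆ Z) : Good Y :=
  fun F hF h' => h F hF (h'.trans e)

theorem fin_mem {Y : Set G} {x : G} (h : x ∈ closure Y) :
    ∃ F : Set G, F.Finite ∧ F ⊆ Y ∧ x ∈ closure F := by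
  induction h using closure_induction with
  | mem x hx => exact ⟨{x}, Set.finite_singleton x, by simpa, subset_closure rfl⟩
  | one => exact ⟨∅, Set.finite_empty, Set.empty_subset _, one_mem _⟩
  | mul x y _ _ hx hy =>
    obtain ⟨F, h1, h2, h3⟩ := hx
    obtain ⟨F', h1', h2', h3'⟩ := hy
    exact ⟨F ∪ F', h1.union h1', Set.union_subset h2 h2',
      mul_mem (closure_mono Set.subset_union_left h3) (closure_mono Set.subset_union_right h3')⟩
  | inv x _ hx =>
    obtain ⟨F, h1, h2, h3⟩ := hx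
    exact ⟨F, h1, h2, inv_mem h3⟩

theorem fin_sub {Y F : Set G} (hF : F.Finite) (h : F ⊆ closure Y) :
    ∃ F' : Set G, F'.Finite ∧ F' ⊆ Y ∧ F ⊆ closure F' := by
  choose! f h1 h2 h3 using fun x (hx : x ∈ F) => fin_mem (h hx)
  refine ⟨⋃ x ∈ F, f x, hF.biUnion h1, Set.iUnion₂_subset h2, fun x hx => ?_⟩
  exact closure_mono (Set.subset_biUnion_of_mem (u := f) hx) (h3 x hx)

theorem Good.clos {Y : Set G} (h : Good Y) : Good (closure Y : Set G) := fun F hF e => by
  obtain ⟨F', h1, h2, h3⟩ := fin_sub hF e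
  exact (h F' h1 h2).mono ((closure_le _).2 h3)

theorem good_nil {H : Subgroup G} (h : Nil H) : Good (H : Set G) :=
  fun _ _ e => h.mono ((closure_le _).2 e)

theorem good_one (x : G) : Good ({x} : Set G) := by
  refine (good_nil (H := zpowers x) (nil_ab ?_)).mono (by simp)
  exact commutator_self_eq_bot_iff.2 inferInstance

theorem cm_one (y : G) (n : ℕ) : (cm y)^[n] 1 = 1 :=
  Function.iterate_fixed (by simp [cm]) n

theorem cm_ge {y u : G} {n m : ℕ} (h : (cm y)^[n] u = 1) (e : n ≤ m) : (cm y)^[m] u = 1 := by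
  obtain ⟨k, rfl⟩ := Nat.exists_eq_add_of_le' e
  rw [Function.iterate_add_apply, h, cm_one]

theorem Good.ext {Y : Set G} {y : G} (h : Good Y) (hy : y ∈ normalizer (closure Y : Set G))
    (he : ∀ u ∈ Y, ∃ n, (cm y)^[n] u = 1) : Good (insert y Y) := by
  intro F hF e
  have hF0 : (F ∩ Y).Finite := hF.inter_of_left Y
  obtain ⟨n, hn⟩ : ∃ n, ∀ u ∈ F ∩ Y, (cm y)^[n] u = 1 := by
    choose! f hf using he
    obtain ⟨n, hn⟩ := (hF0.image f).bddAbove
    exact ⟨n, fun u hu => cm_ge (hf u hu.2) (hn ⟨u, hu, rfl⟩)⟩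
  set T : Set G := Set.image2 (fun j u => (cm y)^[j] u) (Set.Iic n) (F ∩ Y) with hT
  have hTY : T ⊆ closure Y := by
    rintro _ ⟨j, -, u, hu, rfl⟩
    induction j with
    | zero => exact subset_closure hu.2
    | succ j ih => simp only [Function.iterate_succ_apply']; exact cm_mem hy ih
  have hTn : ∀ t ∈ T, (cm y)^[n] t = 1 := by
    rintro _ ⟨j, -, u, hu, rfl⟩
    rw [← Function.iterate_add_apply]
    exact cm_ge (hn u hu) (Nat.le_add_right _ _)
  have hTm : ∀ j, ∀ u ∈ F ∩ Y, (cm y)^[j] u ∈ closure T := by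
    intro j u hu
    rcases le_total j n with hj | hj
    · exact subset_closure ⟨j, hj, u, hu, rfl⟩
    · rw [cm_ge (hn u hu) hj]; exact one_mem _
  have hyT : y ∈ normalizer (closure T : Set G) := by
    rw [← inv_mem_iff, mem_normalizer_iff_map_conj_eq]
    apply le_antisymm
    · rw [MonoidHom.map_closure, closure_le]
      rintro _ ⟨_, ⟨j, -, u, hu, rfl⟩, rfl⟩
      have := mul_mem (hTm j u hu) (hTm (j + 1) u hu)
      rw [Function.iterate_succ_apply'] at this
      rw [SetLike.mem_coe]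
      convert this using 1
      simp only [cm, MonoidHom.coe_coe, MulAut.conj_apply]; group
    · rw [closure_le]
      rintro _ ⟨j, hj, u, hu, rfl⟩
      have : ∀ k j, j + k = n → (cm y)^[j] u ∈ (closure T).map (MulAut.conj y⁻¹ : G →* G) := by
        intro k
        induction k with
        | zero => intro j e; rw [show j = n from e, hn u hu]; exact one_mem _
        | succ k ih =>
          intro j e
          have h1 := ih (j + 1) (by omega)
          rw [Function.iterate_succ_apply'] at h1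
          have := mul_mem (mem_map_of_mem (MulAut.conj y⁻¹ : G →* G) (hTm j u hu)) (inv_mem h1)
          convert this using 1
          simp only [cm, MonoidHom.coe_coe, MulAut.conj_apply]; group
      exact this (n - j) j (by simp only [Set.mem_Iic] at hj; omega)
  obtain ⟨c, hc⟩ := h.clos T ((Set.finite_Iic n).image2 _ hF0) hTY
  obtain ⟨m, hm⟩ := cyc_bd.{u} n c
  refine Nil.mono ⟨m, hm G T y hyT hTn hc⟩ ((closure_le _).2 fun u hu => ?_)
  rcases e hu with rfl | hu'
  · exact mem_sup_right (mem_zpowers _)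
  · exact mem_sup_left (hTm 0 u ⟨hu, hu'⟩)

def Eng (X : Set G) : Prop := ∀ x ∈ X, ∀ y ∈ X, ∃ n, (cm y)^[n] x = 1

theorem Eng.mono {X Y : Set G} (h : Eng X) (e : Y ⊆ X) : Eng Y :=
  fun x hx y hy => h x (e hx) y (e hy)

def Mx (X S : Set G) : Prop := Maximal (fun S => S ⊆ X ∧ Good S) S

theorem ex_mx {X Y : Set G} (h : Good Y) (e : Y ⊆ X) : ∃ S, Y ⊆ S ∧ Mx X S := by
  refine zorn_subset_nonempty {S | S ⊆ X ∧ Good S} (fun c hc hch hne => ?_) Y ⟨e, h⟩
  refine ⟨⋃₀ c, ⟨Set.sUnion_subset fun t ht => (hc ht).1, fun F hF hs => ?_⟩,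
    fun s hs => Set.subset_sUnion_of_mem hs⟩
  obtain ⟨t, ht, h'⟩ := hch.directedOn.exists_mem_subset_of_finite_of_subset_sUnion hne hF hs
  exact (hc ht).2 F hF h'

theorem Mx.ins {X S : Set G} (h : Mx X S) {x : G} (hx : x ∈ X) (hg : Good (insert x S)) : x ∈ S :=
  h.2 ⟨Set.insert_subset hx h.1.1, hg⟩ (Set.subset_insert _ _) (Set.mem_insert _ _)

theorem Mx.mem {X S : Set G} (h : Mx X S) {x : G} (hx : x ∈ X) (hc : x ∈ closure S) : x ∈ S :=
  h.ins hx (h.1.2.clos.mono (Set.insert_subset hc subset_closure))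

theorem Mx.norm {X S : Set G} (h : Mx X S) (he : Eng X) {x : G} (hx : x ∈ X)
    (hc : x ∈ normalizer S) : x ∈ S :=
  h.ins hx (h.1.2.ext (normalizer_le_normalizer_closure S hc) fun u hu => he u (h.1.1 hu) x hx)

theorem lcs_norm {K I : Subgroup G} (h : I ≤ K) (j : ℕ) : I ⊔ K.lowerCentralSeries j ≤
    normalizer ((I ⊔ K.lowerCentralSeries (j + 1) : Subgroup G) : Set G) := by
  refine sup_le (le_sup_left.trans le_normalizer) (le_normalizer_iff_commutator_le_right.2 ?_)
  exact (commutator_mono le_rfl (sup_le h (lowerCentralSeries_le_self _ _))).trans le_sup_right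

theorem norm_inter {P Q : Set G} {y : G} (h1 : y ∈ normalizer P) (h2 : y ∈ normalizer Q) :
    y ∈ normalizer (P ∩ Q) := fun a => and_congr (h1 a) (h2 a)

theorem norm_union {P Q : Set G} {y : G} (h1 : y ∈ normalizer P) (h2 : y ∈ normalizer Q) :
    y ∈ normalizer (P ∪ Q) := fun a => or_congr (h1 a) (h2 a)

theorem nl {K I : Subgroup G} {V : Set G} (hK : Nil K) (h : I ≤ K) (hV : V ⊆ K)
    (hn : V ⊆ normalizer V) (hI : ¬ V ⊆ I) : ∃ y ∈ V, y ∉ I ∧ y ∈ normalizer (V ∩ I) := by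
  by_contra hc
  push Not at hc
  obtain ⟨c, hc'⟩ := hK
  have : ∀ j, V ∩ (I ⊔ K.lowerCentralSeries j : Subgroup G) ⊆ I → V ⊆ I := by
    intro j
    induction j with
    | zero => exact fun h' v hv => h' ⟨hv, mem_sup_right (hV hv)⟩
    | succ j ih =>
      refine fun h' => ih fun v hv => ?_
      by_contra hv'
      refine hc v hv.1 hv' ?_
      have e : V ∩ I = V ∩ (I ⊔ K.lowerCentralSeries (j + 1) : Subgroup G) :=
        Set.Subset.antisymm (fun a ha => ⟨ha.1, mem_sup_left ha.2⟩) fun a ha => ⟨ha.1, h' ha⟩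
      rw [e]
      exact norm_inter (hn hv.1) (lcs_norm h j hv.2)
  exact hI (this c fun v hv => by simpa [hc'] using hv.2)

theorem sn_inter {Q : Set G} (hQ : Q ⊆ normalizer Q) (K : Subgroup G) :
    Q ∩ K ⊆ normalizer (Q ∩ K) := fun _ hv => norm_inter (hQ hv.1) (le_normalizer hv.2)

theorem Good.union {P Q : Set G} (hP : Good P) (hQ : Good Q) (he : Eng (P ∪ Q))
    (h1 : Q ⊆ normalizer P) (h2 : Q ⊆ normalizer Q) : Good (P ∪ Q) := by
  intro F hF e
  set K := closure (F ∩ Q)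
  have hK : Nil K := hQ _ (hF.inter_of_left Q) Set.inter_subset_right
  obtain ⟨S, hS, mx⟩ := ex_mx (X := P ∪ Q ∩ K) hP Set.subset_union_left
  have hI : closure (S ∩ (Q ∩ K)) ≤ K := (closure_le _).2 fun a ha => ha.2.2
  have e1 : Q ∩ K ∩ closure (S ∩ (Q ∩ K)) = S ∩ (Q ∩ K) :=
    Set.Subset.antisymm (fun a ha => ⟨mx.mem (Or.inr ha.1)
      (closure_mono Set.inter_subset_left ha.2), ha.1⟩) fun a ha => ⟨ha.2, subset_closure ha⟩
  have e2 : S = P ∪ S ∩ (Q ∩ K) := Set.Subset.antisymm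
    (fun a ha => (mx.1.1 ha).imp id fun h => ⟨ha, h⟩) (Set.union_subset hS Set.inter_subset_left)
  have : Q ∩ K ⊆ closure (S ∩ (Q ∩ K)) := by
    by_contra hc
    obtain ⟨y, y1, y2, y3⟩ := nl hK hI Set.inter_subset_right (sn_inter h2 K) hc
    rw [e1] at y3
    refine y2 (subset_closure ⟨mx.norm (he.mono (Set.union_subset_union_right _
      Set.inter_subset_left)) (Or.inr y1) ?_, y1⟩)
    rw [e2]
    exact norm_union (h1 y1.1) y3
  refine mx.1.2 F hF fun a ha => (e ha).elim (fun h => hS h) fun h => ?_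
  have h3 : a ∈ Q ∩ K := ⟨h, subset_closure ⟨ha, h⟩⟩
  exact (e1.subset ⟨h3, this h3⟩).1

theorem good_of_parts {Y : Set G} (he : Eng Y)
    (h : ∀ u ∈ Y, ∃ P, u ∈ P ∧ P ⊆ Y ∧ Good P ∧ Y ⊆ normalizer P) : Good Y := by
  have : ∀ F : Set G, F.Finite → F ⊆ Y → ∃ P, F ⊆ P ∧ P ⊆ Y ∧ Good P ∧ Y ⊆ normalizer P := by
    intro F hF
    induction F, hF using Set.Finite.induction_on with
    | empty => exact fun _ => ⟨∅, le_rfl, Set.empty_subset _,
        (good_one 1).mono (Set.empty_subset _), fun _ _ _ => Iff.rfl⟩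
    | @insert u F _ _ ih =>
      intro e
      obtain ⟨P, p1, p2, p3, p4⟩ := ih ((Set.subset_insert _ _).trans e)
      obtain ⟨Q, q1, q2, q3, q4⟩ := h u (e (Set.mem_insert _ _))
      exact ⟨P ∪ Q, Set.insert_subset (Or.inr q1) (p1.trans Set.subset_union_left),
        Set.union_subset p2 q2, p3.union q3 (he.mono (Set.union_subset p2 q2)) (q2.trans p4)
          (q2.trans q4), fun y hy => norm_union (p4 hy) (q4 hy)⟩
  intro F hF e
  obtain ⟨P, p1, -, p3, -⟩ := this F hF e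
  exact p3 F hF p1

def cos (X : Set G) (x : G) (A : Subgroup G) : Set G := {u | u ∈ X ∧ x⁻¹ * u ∈ A}

theorem cos_norm {X : Set G} {u v : G} {A : Subgroup G} (h1 : v ∈ normalizer X)
    (h2 : v ∈ normalizer (A : Set G)) (h3 : u⁻¹ * (v * u * v⁻¹) ∈ A) :
    v ∈ normalizer (cos X u A) := by
  refine fun w => and_congr (h1 w) ?_
  have : u⁻¹ * (v * w * v⁻¹) = u⁻¹ * (v * u * v⁻¹) * (v * (u⁻¹ * w) * v⁻¹) := by group
  rw [this, A.mul_mem_cancel_left h3]
  exact mem_normalizer_iff.1 h2 _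

theorem red {X : Set G} {E N : Subgroup G} {x : G} (hX : X ⊆ normalizer X) (he : Eng X)
    (hx : x ∈ X) (ok : Ok E x N) (h : ∀ u ∈ cos X x E, Good (cos X u N)) : Good (cos X x E) := by
  have key : ∀ j, ∀ u ∈ cos X x E, Good (cos X u (ch ok j).1) := by
    intro j
    induction j with
    | zero => exact h
    | succ j ih =>
      intro w hw
      have o1 := (ch ok (j + 1)).2
      have o0 := (ch ok j).2
      have hE : ∀ u ∈ cos X w (ch ok (j + 1)).1, u ∈ cos X x E := fun u hu =>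
        ⟨hu.1, by simpa [mul_assoc] using mul_mem hw.2 (o1.l hu.2)⟩
      have hK : ∀ u ∈ cos X x E, u ∈ E ⊔ zpowers x := fun u hu => by
        simpa using mul_mem (mem_sup_right (mem_zpowers x) : x ∈ E ⊔ zpowers x) (mem_sup_left hu.2)
      refine good_of_parts (he.mono fun _ hu => hu.1) fun u hu => ⟨cos X u (ch ok j).1,
        ⟨hu.1, by simp⟩, fun v hv => ⟨hv.1, ?_⟩, ih u (hE u hu), fun v hv => cos_norm (hX hv.1)
          (sup_le o0.n (zpowers_le.2 o0.a) (hK v (hE v hv))) ?_⟩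
      · simpa [mul_assoc] using mul_mem hu.2 (ch_mono ok (Nat.le_succ j) hv.2)
      · have h1 : u⁻¹ * v ∈ (ch ok (j + 1)).1 := by
          simpa [mul_assoc] using mul_mem (inv_mem hu.2) hv.2
        have := ch_comm ok j (commutator_mem_commutator h1 (hK u (hE u hu)))
        convert this using 1
        simp only [commutatorElement_def]; group
  intro F hF e
  have : ∀ u ∈ F, ∃ j, x⁻¹ * u ∈ (ch ok j).1 := fun u hu => by
    obtain ⟨n, hn⟩ := he u (e hu).1 x hx
    refine ⟨n + 1, ch_mem ok _ _ (e hu).2 ?_⟩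
    have : cm x (x⁻¹ * u) = cm x u := by simp only [cm]; group
    rw [Function.iterate_succ_apply, this, ← Function.iterate_succ_apply, cm_ge hn (Nat.le_succ n)]
    exact one_mem _
  choose! f hf using this
  obtain ⟨n, hn⟩ := (hF.image f).bddAbove
  exact key n x ⟨hx, by simp⟩ F hF fun u hu => ⟨(e hu).1, ch_mono ok (hn ⟨u, hu, rfl⟩) (hf u hu)⟩

end Pool.Agent.H.MP_a1472e_al
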