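import Pool.Agent.H.MP_a1472e_al.B

set_option autoImplicit false

namespace Pool.Agent.H.MP_a1472e_al

open Subgroup
open scoped commutatorElement

universe u
variable {G : Type u} [Group G]

def cj (g : G) (S : Set G) : Set G := {u | g⁻¹ * u * g ∈ S}

theorem Good.cj {S : Set G} (h : Good S) (g : G) : Good (cj g S) := by
  intro F hF e
  have := (h _ (hF.image (MulAut.conj g⁻¹ : G →* G)) (by
    rintro _ ⟨u, hu, rfl⟩
    simpa [MP_a1472e_al.cj] using e hu)).map (MulAut.conj g : G →* G)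
  refine this.mono ((closure_le _).2 fun u hu => ⟨_, subset_closure ⟨u, hu, rfl⟩, ?_⟩)
  simp [mul_assoc]

theorem Mx.cj {X S : Set G} (h : Mx X S) {g : G} (hg : g ∈ normalizer X) : Mx X (cj g S) := by
  refine ⟨⟨fun u hu => (mem_set_normalizer_iff''.1 hg u).2 (h.1.1 hu), h.1.2.cj g⟩,
    fun T hT e u hu => h.2 (y := MP_a1472e_al.cj g⁻¹ T) ⟨fun v hv => ?_, hT.2.cj _⟩
      (fun v hv => e ?_) ?_⟩
  · exact (mem_set_normalizer_iff''.1 (inv_mem hg) v).2 (hT.1 hv)
  · simpa [MP_a1472e_al.cj, mul_assoc] using hv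
  · simpa [MP_a1472e_al.cj, mul_assoc] using hu

theorem Mx.sn {X S : Set G} (h : Mx X S) (hX : X ⊆ normalizer X) : S ⊆ normalizer S := by
  have : closure S ≤ normalizer S := le_set_normalizer_iff.2 fun a ha g hg =>
    h.mem (((closure_le _).2 (h.1.1.trans hX) ha g).1 (h.1.1 hg))
      (mul_mem (mul_mem ha (subset_closure hg)) (inv_mem ha))
  exact subset_closure.trans this

theorem trick {X S L : Set G} {x y : G} (hX : X ⊆ normalizer X) (he : Eng X) (h : Mx X S)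
    (hL : L ⊆ S) (hx : x ∈ S) (hy : y ∈ X) (hy' : y ∉ S) (nx : x ∈ normalizer L)
    (ny : y ∈ normalizer L) : ∃ S', Mx X S' ∧ S' ≠ S ∧ insert x L ⊆ S' := by
  obtain ⟨g, g1, g2, g3⟩ : ∃ g ∈ normalizer L ⊓ normalizer X, g⁻¹ * x * g ∈ S ∧
      g ∉ normalizer S := by
    by_contra hc
    push Not at hc
    have hx' : x ∈ normalizer L ⊓ normalizer X := ⟨nx, hX (h.1.1 hx)⟩
    have key : ∀ i, (cm x)^[i] y ∈ normalizer L ⊓ normalizer X ∧
        ((cm x)^[i] y)⁻¹ * x * (cm x)^[i] y ∉ S := by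
      intro i
      induction i with
      | zero => exact ⟨⟨ny, hX hy⟩, fun h' => hy' (h.norm he hy (hc y ⟨ny, hX hy⟩ h'))⟩
      | succ i ih =>
        rw [Function.iterate_succ_apply']
        generalize (cm x)^[i] y = c at ih
        refine ⟨cm_mem (le_normalizer hx') ih.1, fun h' => ih.2 ?_⟩
        refine h.norm he ((mem_set_normalizer_iff''.1 ih.1.2 x).1 (h.1.1 hx)) (inv_mem_iff.1
          (hc _ (inv_mem (mul_mem (mul_mem (inv_mem ih.1) hx') ih.1)) ?_))
        have := (h.sn hX hx _).1 h'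
        convert this using 1
        simp only [cm]; group
    obtain ⟨n, hn⟩ := he y hy x (h.1.1 hx)
    exact (key n).2 (by simpa [hn] using hx)
  refine ⟨_, h.cj g1.2, fun e => g3 (mem_set_normalizer_iff''.2 fun a => ?_),
    Set.insert_subset g2 fun a ha => hL ((mem_set_normalizer_iff''.1 g1.1 a).1 ha)⟩
  exact (Set.ext_iff.1 e a).symm

theorem lemN {X U S F : Set G} (hX : X ⊆ normalizer X) (hU : Mx X U) (hS : Mx X S) (ne : U ≠ S)
    (hF : F.Finite) (h1 : F ⊆ U) (h2 : F ⊆ S) :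
    ∃ Y y, F ⊆ Y ∧ Y ⊆ U ∧ Y ⊆ S ∧ y ∈ S ∧ y ∉ U ∧ y ∈ normalizer Y := by
  obtain ⟨t, t1, t2⟩ : ∃ t ∈ S, t ∉ U := by
    by_contra hc
    push Not at hc
    exact ne (Set.Subset.antisymm (hS.2 hU.1 hc) hc)
  set K := closure (insert t F)
  have hK : Nil K := hS.1.2 _ (hF.insert t) (Set.insert_subset t1 h2)
  have hV : X ∩ K ⊆ S := fun a ha => hS.mem ha.1 (closure_mono (Set.insert_subset t1 h2) ha.2)
  have hI : closure (U ∩ K) ≤ K := (closure_le _).2 Set.inter_subset_right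
  have e1 : ∀ a ∈ X, a ∈ closure (U ∩ K) → a ∈ U := fun a ha hb =>
    hU.mem ha (closure_mono Set.inter_subset_left hb)
  obtain ⟨y, y1, y2, y3⟩ := nl hK hI Set.inter_subset_right (sn_inter hX K) fun hc =>
    t2 (e1 t (hS.1.1 t1) (hc ⟨hS.1.1 t1, subset_closure (Set.mem_insert _ _)⟩))
  refine ⟨_, y, fun a ha => ?_, fun a ha => e1 a ha.1.1 ha.2, fun a ha => hV ha.1, hV y1,
    fun h => y2 (subset_closure ⟨h, y1.2⟩), y3⟩
  have : a ∈ K := subset_closure (Set.mem_insert_of_mem _ ha)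
  exact ⟨⟨hU.1.1 (h1 ha), this⟩, subset_closure ⟨h1 ha, this⟩⟩

theorem norm_St {P : Set G} {Q : Subgroup G} {y : G} (h1 : y ∈ normalizer P)
    (h2 : y ∈ normalizer (Q : Set G)) : y ∈ normalizer (St P Q : Set G) := by
  refine (le_set_normalizer_iff (H := normalizer P ⊓ normalizer (Q : Set G))
    (s := St P Q)).2
    (fun h hh g hg => ⟨mul_mem (mul_mem hh.2 hg.1) (inv_mem hh.2), fun a ha => ?_⟩) ⟨h1, h2⟩
  have := (hh.2 _).1 (hg.2 _ ((mem_set_normalizer_iff''.1 hh.1 a).1 ha))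
  rw [SetLike.mem_coe] at this
  convert this using 1
  simp only [commutatorElement_def]; group

theorem norm_cent {P : Set G} {y : G} (h1 : y ∈ normalizer P) :
    y ∈ normalizer (centralizer P : Set G) := by
  refine (le_set_normalizer_iff (H := normalizer P) (s := centralizer P)).2
    (fun h hh g hg a ha => ?_) h1
  have := hg _ ((mem_set_normalizer_iff''.1 hh a).1 ha)
  calc a * (h * g * h⁻¹) = h * (h⁻¹ * a * h * g) * h⁻¹ := by group
    _ = _ := by rw [this]; group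

theorem norm_inf {P Q : Subgroup G} {y : G} (h1 : y ∈ normalizer (P : Set G))
    (h2 : y ∈ normalizer (Q : Set G)) : y ∈ normalizer ((P ⊓ Q : Subgroup G) : Set G) :=
  norm_inter h1 h2

def Cz (C : Subgroup G) : Prop := ∃ A : Set G, C = centralizer A

theorem Cz.inf {C : Subgroup G} (h : Cz C) (B : Set G) : Cz (C ⊓ centralizer B) := by
  obtain ⟨A, rfl⟩ := h
  refine ⟨A ∪ B, le_antisymm (fun g hg a ha => ha.elim (hg.1 a) (hg.2 a)) (le_inf ?_ ?_)⟩
  · exact centralizer_le Set.subset_union_left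
  · exact centralizer_le Set.subset_union_right

def Rel (C M0 M : Subgroup G) : Prop := M0 ≤ M ∧ M ≤ C ∧
  centralizer (M : Set G) = centralizer (M0 : Set G) ∧
  centralizer ((⁅M, M⁆ : Subgroup G) : Set G) = centralizer ((⁅M0, M0⁆ : Subgroup G) : Set G)

theorem env {C : Subgroup G} (hC : Cz C) {M0 : Subgroup G} (h0 : M0 ≤ C) :
    ∃ E N : Subgroup G, ⁅E, E⁆ ≤ N ∧ N ≤ E ∧ (N = ⊥ ∨ (N < C ∧ Cz N)) ∧
      (∀ M, Rel C M0 M → Nil M → M ≤ E) ∧
      ∀ M, Rel C M0 M → ∀ y ∈ normalizer (C : Set G), y ∈ normalizer (M : Set G) →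
        y ∈ normalizer (E : Set G) ∧ y ∈ normalizer (N : Set G) := by
  set B := centralizer (M0 : Set G) with hB
  set D := C ⊓ centralizer (B : Set G) with hD
  set Z := D ⊓ B with hZ
  set W := D ⊓ St (M0 : Set G) Z with hW
  have zd : ⁅Z, D⁆ = ⊥ := commutator_eq_bot_iff_le_centralizer.2
    (le_centralizer_iff.2 (inf_le_right.trans (centralizer_le (by exact inf_le_right))))
  have bot : ∀ {P Q : Subgroup G}, P ≤ Z → Q ≤ D → ⁅P, Q⁆ = ⊥ := fun h1 h2 =>
    le_bot_iff.1 ((commutator_mono h1 h2).trans zd.le)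
  have dz : D ≤ normalizer (Z : Set G) := le_normalizer_iff_commutator_le_left.2 (zd.le.trans bot_le)
  have md : ∀ M, Rel C M0 M → M ≤ D := fun M h =>
    le_inf h.2.1 (le_centralizer_iff.2 h.2.2.1.ge)
  have r0 : Rel C M0 M0 := ⟨le_rfl, h0, rfl, rfl⟩
  have wd : W ≤ D := inf_le_left
  have w0 : ⁅M0, W⁆ ≤ Z := (comm_le_iff (wd.trans dz)).2 inf_le_right
  have wm : ∀ M, Rel C M0 M → ⁅W, M⁆ ≤ Z := fun M h => by
    have h1 : W ≤ centralizer ((⁅M, M⁆ : Subgroup G) : Set G) := by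
      rw [h.2.2.2, ← commutator_eq_bot_iff_le_centralizer, commutator_comm]
      exact commutator_commutator_eq_bot_of_rotate (bot w0 (md _ r0))
        (bot ((commutator_comm_le _ _).trans w0) (md _ r0))
    refine le_inf ((commutator_mono wd (md M h)).trans (commutator_le_self D)) ?_
    rw [hB, ← commutator_eq_bot_iff_le_centralizer]
    refine commutator_commutator_eq_bot_of_rotate ?_ (bot w0 (md M h))
    rw [← commutator_eq_bot_iff_le_centralizer, commutator_comm] at h1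
    exact le_bot_iff.1 ((commutator_mono (commutator_mono le_rfl h.1) le_rfl).trans h1.le)
  have we : ∀ M, Rel C M0 M → W = D ⊓ St (M : Set G) Z := fun M h => le_antisymm
    (le_inf wd ((comm_le_iff (wd.trans dz)).1 ((commutator_comm_le _ _).trans (wm M h))))
    (inf_le_inf_left _ fun g hg => ⟨hg.1, fun a ha => hg.2 a (h.1 ha)⟩)
  have nn : ∀ M, Rel C M0 M → ∀ y ∈ normalizer (C : Set G), y ∈ normalizer (M : Set G) →
      y ∈ normalizer (D : Set G) ∧ y ∈ normalizer (Z : Set G) ∧ y ∈ normalizer (W : Set G) := by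
    intro M h y y1 y2
    have b : y ∈ normalizer (B : Set G) := by rw [hB, ← h.2.2.1]; exact norm_cent y2
    have d : y ∈ normalizer (D : Set G) := norm_inf y1 (norm_cent b)
    have z : y ∈ normalizer (Z : Set G) := norm_inf d b
    exact ⟨d, z, by rw [we M h]; exact norm_inf d (norm_St y2 z)⟩
  by_cases hlt : D ⊓ centralizer (W : Set G) < C
  · have ew : ⁅W, D ⊓ St (W : Set G) Z⁆ ≤ Z := (comm_le_iff (inf_le_left.trans dz)).2 inf_le_right
    refine ⟨D ⊓ St (W : Set G) Z, D ⊓ centralizer (W : Set G), le_inf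
      ((commutator_le_self _).trans inf_le_left) ?_, le_inf inf_le_left ?_,
      Or.inr ⟨hlt, (hC.inf _).inf _⟩, fun M h _ => le_inf (md M h)
        ((comm_le_iff ((md M h).trans dz)).1 (wm M h)), fun M h y y1 y2 => ?_⟩
    · rw [← commutator_eq_bot_iff_le_centralizer]
      exact commutator_commutator_eq_bot_of_rotate
        (bot ((commutator_comm_le _ _).trans ew) inf_le_left) (bot ew inf_le_left)
    · rw [← comm_le_iff (inf_le_left.trans dz), commutator_comm,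
        commutator_eq_bot_iff_le_centralizer.2 inf_le_right]
      exact bot_le
    · obtain ⟨d, z, w⟩ := nn M h y y1 y2
      exact ⟨norm_inf d (norm_St w z), norm_inf d (norm_cent w)⟩
  · have cw : C ≤ centralizer (W : Set G) :=
      (eq_of_le_of_not_lt (inf_le_left.trans inf_le_left) hlt).ge.trans inf_le_right
    refine ⟨Z, ⊥, (bot le_rfl inf_le_left).le, bot_le, Or.inl rfl, fun M h hn => ?_,
      fun M h y y1 y2 => ⟨(nn M h y y1 y2).2.1, le_normalizer_of_normal (K := ⊤) trivial⟩⟩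
    obtain ⟨c, hc⟩ := hn
    have : ∀ c, M.lowerCentralSeries (c + 1) = ⊥ → M.lowerCentralSeries 1 = ⊥ := by
      intro c
      induction c with
      | zero => exact id
      | succ c ih =>
        refine fun hc => ih ?_
        have q := (lowerCentralSeries_le_self M c).trans (md M h)
        have : M.lowerCentralSeries c ≤ W := by
          rw [we M h]
          refine le_inf q ((comm_le_iff (q.trans dz)).1 ((commutator_comm_le _ _).trans (le_inf
            ((lowerCentralSeries_le_self M (c + 1)).trans (md M h)) ?_)))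
          rw [hB, ← h.2.2.1, ← commutator_eq_bot_iff_le_centralizer]
          exact hc
        exact commutator_eq_bot_iff_le_centralizer.2
          (this.trans (le_centralizer_iff.1 (h.2.1.trans cw)))
    refine le_inf (md M h) ?_
    rw [hB, ← h.2.2.1, ← commutator_eq_bot_iff_le_centralizer]
    exact this c (by rw [Subgroup.lowerCentralSeries_succ, hc, commutator_bot_left])

def MC (G : Type u) [Group G] : Prop :=
  ∀ s : Set (Subgroup G), s.Nonempty → (∀ C ∈ s, Cz C) → ∃ C ∈ s, ∀ D ∈ s, ¬ D < C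

theorem sel1 (mc : MC G) (s : Set (Set G)) (hs : s.Nonempty) (ν : Set G → Subgroup G)
    (hν : Monotone ν) : ∃ F0 ∈ s, ∀ F ∈ s, F0 ⊆ F →
      centralizer (ν F : Set G) = centralizer (ν F0 : Set G) := by
  obtain ⟨_, ⟨F0, h0, rfl⟩, h⟩ := mc ((fun F => centralizer (ν F : Set G)) '' s) (hs.image _)
    (by rintro _ ⟨F, -, rfl⟩; exact ⟨_, rfl⟩)
  exact ⟨F0, h0, fun F hF e => eq_of_le_of_not_lt (centralizer_le (hν e)) (h _ ⟨F, hF, rfl⟩)⟩

theorem sel (mc : MC G) (C : Subgroup G) (b : Set G → Prop) (hb : ∀ Y Z, b Z → Y ⊆ Z → b Y)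
    {x : G} (hx : b {x}) : ∃ F0 : Set G, F0.Finite ∧ x ∈ F0 ∧ b F0 ∧
      ∀ Y, b Y → F0 ⊆ Y → Rel C (closure F0 ⊓ C) (closure Y ⊓ C) := by
  have m1 : Monotone fun F : Set G => closure F ⊓ C := fun _ _ e => inf_le_inf_right _ (closure_mono e)
  have m2 : Monotone fun F : Set G => ⁅closure F ⊓ C, closure F ⊓ C⁆ := fun _ _ e =>
    commutator_mono (m1 e) (m1 e)
  obtain ⟨F1, a1, h1⟩ := sel1 mc {F | F.Finite ∧ x ∈ F ∧ b F} ⟨{x}, by simp, rfl, hx⟩ _ m1
  obtain ⟨F0, a0, h0⟩ := sel1 mc {F | (F.Finite ∧ x ∈ F ∧ b F) ∧ F1 ⊆ F} ⟨F1, a1, le_rfl⟩ _ m2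
  refine ⟨F0, a0.1.1, a0.1.2.1, a0.1.2.2, fun Y hY e => ?_⟩
  have key : ∀ p ∈ closure Y ⊓ C, ∀ q ∈ closure Y ⊓ C, ∃ F, ((F.Finite ∧ x ∈ F ∧ b F) ∧ F0 ⊆ F) ∧
      p ∈ closure F ⊓ C ∧ q ∈ closure F ⊓ C := fun p hp q hq => by
    obtain ⟨F, f1, f2, f3⟩ := fin_sub (Y := Y) (Set.toFinite {p, q})
      (Set.insert_subset hp.1 (Set.singleton_subset_iff.2 hq.1))
    exact ⟨F ∪ F0, ⟨⟨f1.union a0.1.1, Or.inr a0.1.2.1, hb _ _ hY (Set.union_subset f2 e)⟩,
      Set.subset_union_right⟩, ⟨closure_mono Set.subset_union_left (f3 (by simp)), hp.2⟩,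
      ⟨closure_mono Set.subset_union_left (f3 (by simp)), hq.2⟩⟩
  refine ⟨m1 e, inf_le_right, le_antisymm (centralizer_le (m1 e)) (le_centralizer_iff.1 ?_),
    le_antisymm (centralizer_le (m2 e)) (le_centralizer_iff.1 (commutator_le.2 ?_))⟩
  · intro p hp
    obtain ⟨F, f1, f2, -⟩ := key p hp p hp
    rw [h1 F0 a0.1 a0.2, ← h1 F f1.1 (a0.2.trans f1.2)]
    exact le_centralizer_iff.1 le_rfl f2
  · intro p hp q hq
    obtain ⟨F, f1, f2, f3⟩ := key p hp q hq
    rw [← h0 F ⟨f1.1, a0.2.trans f1.2⟩ f1.2]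
    exact le_centralizer_iff.1 le_rfl (commutator_mem_commutator f2 f3)

theorem mc_ind (mc : MC G) (P : Subgroup G → Prop)
    (h : ∀ C, Cz C → (∀ D, D < C → Cz D → P D) → P C) : P ⊤ := by
  by_contra hc
  obtain ⟨C, h1, h2⟩ := mc {C | Cz C ∧ ¬ P C} ⟨⊤, ⟨∅, by ext; simp [mem_centralizer_iff]⟩, hc⟩
    fun _ hC => hC.1
  exact h1.2 (h C h1.1 fun D d1 d2 => by_contra fun d3 => h2 D ⟨d2, d3⟩ d1)

theorem main (mc : MC G) {X : Set G} (hX : X ⊆ normalizer X) (he : Eng X) : Good X := by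
  refine mc_ind mc (fun C => ∀ X : Set G, X ⊆ normalizer X → Eng X → X ⊆ normalizer (C : Set G) →
    (∀ x ∈ X, ∀ u ∈ X, x⁻¹ * u ∈ C) → Good X) ?_ X hX he
    (subset_normalizer_of_normal) fun _ _ _ _ => trivial
  clear hX he X
  intro C hC ih X hX he hn hc
  by_contra ng
  obtain ⟨x, hx⟩ : X.Nonempty := Set.nonempty_iff_ne_empty.2 fun e =>
    ng (e ▸ (good_one 1).mono (Set.empty_subset _))
  let b : Set G → Prop := fun Y => ∃ S T, Mx X S ∧ Mx X T ∧ S ≠ T ∧ Y ⊆ S ∧ Y ⊆ T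
  have hb : ∀ Y Z, b Z → Y ⊆ Z → b Y := fun Y Z ⟨S, T, h1, h2, h3, h4, h5⟩ e =>
    ⟨S, T, h1, h2, h3, e.trans h4, e.trans h5⟩
  have bx : b {x} := by
    obtain ⟨S, s1, s2⟩ := ex_mx (good_one x) (Set.singleton_subset_iff.2 hx)
    obtain ⟨y, y1, y2⟩ := Set.not_subset.1 fun e => ng (s2.1.2.mono e)
    obtain ⟨S', a, b, c⟩ := trick hX he s2 (Set.empty_subset _) (s1 rfl) y1 y2
      (fun _ => Iff.rfl) fun _ => Iff.rfl
    exact ⟨S', S, a, s2, b, by simpa using c, s1⟩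
  obtain ⟨F0, f1, f2, f3, f4⟩ := sel mc C b hb bx
  obtain ⟨E, N, e1, e2, e3, e4, e5⟩ := env hC (M0 := closure F0 ⊓ C) inf_le_right
  have bX : ∀ Y, b Y → Y ⊆ X ∧ Good Y := fun Y ⟨S, _, h1, _, _, h4, _⟩ =>
    ⟨h4.trans h1.1.1, h1.1.2.mono h4⟩
  have pa : ∀ Y, b Y → F0 ⊆ Y → Y ⊆ cos X x E := fun Y hY e u hu => by
    have hu' := (bX Y hY).1 hu
    have bb := hb _ _ hY (Set.insert_subset hu e)
    refine ⟨hu', e4 _ (f4 _ bb (Set.subset_insert _ _))
      (((bX _ bb).2 _ (f1.insert u) le_rfl).mono inf_le_left) ⟨Subgroup.mul_mem _ (Subgroup.inv_mem _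
        (subset_closure (Set.mem_insert_of_mem _ f2))) (subset_closure (Set.mem_insert _ _)),
          hc x hx u hu'⟩⟩
  have pb : ∀ Y, b Y → F0 ⊆ Y → ∀ y ∈ X, y ∈ normalizer Y → y ∈ normalizer (cos X x E) :=
    fun Y hY e y hy h => cos_norm (hX hy) (e5 _ (f4 Y hY e) y (hn hy)
      (norm_inf (normalizer_le_normalizer_closure Y h) (hn hy))).1 (pa Y hY e ((h x).1 (e f2))).2
  have ex := e5 _ (f4 F0 f3 le_rfl) x (hn hx) (norm_inf (le_normalizer (subset_closure f2)) (hn hx))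
  have ok : Ok E x N := ⟨e1, e2, ex.1, ex.2⟩
  have gl : Good (cos X x E) := by
    refine red hX he hx ok fun u hu => ?_
    have un : u ∈ normalizer (N : Set G) := by simpa using mul_mem ok.a (ok.n hu.2)
    have vn : cos X u N ⊆ normalizer (N : Set G) := fun v hv => by
      simpa using mul_mem un (le_normalizer hv.2)
    rcases e3 with rfl | ⟨h1, h2⟩
    · exact (good_one u).mono fun v hv => (inv_mul_eq_one.1 (mem_bot.1 hv.2)).symm
    · refine ih N h1 h2 _ (fun v hv => cos_norm (hX hv.1) (vn hv) ?_)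
        (he.mono fun _ h => h.1) vn fun v hv w hw => ?_
      · have := mul_mem hv.2 ((mem_normalizer_iff.1 un _).1 (inv_mem hv.2))
        convert this using 1
        group
      · simpa [mul_assoc] using mul_mem (inv_mem hv.2) hw.2
  obtain ⟨U, u1, u2⟩ := ex_mx gl (X := X) fun _ h => h.1
  have fl := pa F0 f3 le_rfl
  obtain ⟨S, s1, s2, s3⟩ : ∃ S, Mx X S ∧ U ≠ S ∧ F0 ⊆ S := by
    obtain ⟨S, T, h1, h2, h3, h4, h5⟩ := f3
    by_cases e : U = S
    · exact ⟨T, h2, e ▸ h3, h5⟩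
    · exact ⟨S, h1, e, h4⟩
  obtain ⟨Y, y, y1, y2, y3, y4, y5, y6⟩ := lemN hX u2 s1 s2 f1 (fl.trans u1) s3
  have yX := s1.1.1 y4
  have ny := pb Y ⟨U, S, u2, s1, s2, y2, y3⟩ y1 y yX y6
  obtain ⟨U', v1, v2⟩ := ex_mx (gl.ext (normalizer_le_normalizer_closure _ ny)
    fun u hu => he u hu.1 y yX) (X := X) (Set.insert_subset yX fun _ h => h.1)
  have v3 : U' ≠ U := fun e => y5 (e ▸ v1 (Set.mem_insert _ _))
  have v4 := (Set.subset_insert _ _).trans v1
  obtain ⟨Y', z, z1, z2, z3, z4, z5, z6⟩ := lemN hX v2 u2 v3 f1 (fl.trans v4) (fl.trans u1)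
  have zX := u2.1.1 z4
  obtain ⟨S', a1, a2, a3⟩ := trick hX he v2 v4 (v1 (Set.mem_insert _ _)) zX z5 ny
    (pb Y' ⟨U', U, v2, u2, v3, z2, z3⟩ z1 z zX z6)
  exact y5 (u1 (pa _ ⟨S', U', a1, v2, a2, a3, v1⟩ (fl.trans (Set.subset_insert _ _))
    (Set.mem_insert _ _)))

theorem mc_chain (h : ∀ c : ℕ → Set G, Antitone (fun n => centralizer (c n)) →
    ∃ N : ℕ, ∀ n : ℕ, N ≤ n → centralizer (c n) = centralizer (c N)) : MC G := by
  intro s ⟨C0, h0⟩ hs
  by_contra hc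
  push Not at hc
  choose! f f1 f2 using hc
  choose! a ha using hs
  have m : ∀ n, f^[n] C0 ∈ s := fun n => by
    induction n with
    | zero => exact h0
    | succ n ih => rw [Function.iterate_succ_apply']; exact f1 _ ih
  have lt : ∀ n, centralizer (a (f^[n + 1] C0)) < centralizer (a (f^[n] C0)) := fun n => by
    rw [← ha _ (m _), ← ha _ (m _), Function.iterate_succ_apply']
    exact f2 _ (m n)
  obtain ⟨N, hN⟩ := h (fun n => a (f^[n] C0)) (antitone_nat_of_succ_le fun n => (lt n).le)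
  exact (lt N).ne (hN _ (Nat.le_succ N))

theorem mc_fin (h : ∀ X : Set G, ∃ F : Finset G, (F : Set G) ⊆ X ∧
    centralizer X = centralizer (F : Set G)) : MC G := by
  refine mc_chain fun c hc => ?_
  obtain ⟨F, f1, f2⟩ := h (⋃ n, c n)
  have : ∀ x ∈ F, ∃ n, x ∈ c n := fun x hx => Set.mem_iUnion.1 (f1 hx)
  choose! g hg using this
  refine ⟨F.sup g, fun n hn => le_antisymm (hc hn) (le_trans ?_
    (f2.ge.trans (centralizer_le (Set.subset_iUnion c n))))⟩
  exact fun y hy x hx => hc (Finset.le_sup (f := g) hx) hy x (hg x hx)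

theorem sn_of {X : Set G} (h : ∀ g : G, ∀ x ∈ X, g * x * g⁻¹ ∈ X) (g : G) : g ∈ normalizer X :=
  (le_set_normalizer_iff (H := ⊤)).2 (fun g _ => h g) trivial

end Pool.Agent.H.MP_a1472e_al
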